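import Pool.Agent.Helper27.AW.Glue
import Pool.Agent.Helper92.SS.Ae
import Pool.Agent.Helper92.SS.AeI
import Pool.Agent.Helper60.AW.Close
import Pool.Agent.Helper22.AI.Cont
import Pool.Agent.Helper81.AO.Fin

/-!
# AW (MP_fb29e9_nt, AlmostEveryOval v6): prevalence of the laws for all `2 ≤ k ≤ ∞`, with the upper bound for the frequency at the worst centre, final form

Blocks of v6: definitions by helper22, the Borel set by helper99, the law at the worst centre by helper92, the passage to all `X` by helper60; see also `Helper27/AO/Fin`.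
-/

open MeasureTheory Real Set Filter Topology

set_option autoImplicit false

namespace Pool.Agent.Helper27.AW

open Pool.Agent.Helper93.AO (Om PP IsOv Er gR as_lat WW_smooth WW_per WW_cont_unif)
open Pool.Agent.Helper93.EX (nu1 nu1_rapid kap aff Law Law4 LV LVc fin_law as_law_s)
open Pool.Agent.Helper22.AE (rho)
open Pool.Agent.Helper22.LP (Fr fdet)
open Pool.Agent.Helper88.EX (idf)
open Pool.Agent.Helper22.AI (Amp as_law_s_h)
open Pool.Agent.Helper22.AW (LS LSc LawS)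
open Pool.Agent.Helper60.AW (fin_law_s)
open Pool.Agent.Helper27.AO

section

variable {k : ℕ∞} {V : Type} [TopologicalSpace V] {val : V → ℝ → ℝ}

/-- the laws for all `X` -/
def AllX (H : ℝ → ℝ) : Prop := ∀ σ : ℝ, σ = 1 ∨ σ = -1 → ∀ t : ℝ, 0 < t → ∀ ε : ℝ, 0 < ε → ∃ X₀ : ℝ, ∀ X : ℝ, X₀ ≤ X →
  LSc (fun R c => σ * Er idf H c R) t X (2 * X) ≤ X ^ (1 - (t / (kap σ * aff H ^ (3 / 4 : ℝ))) ^ 4 + ε) ∧ ∀ c : ℝ × ℝ,
    (t < kap σ * aff H ^ (3 / 4 : ℝ) → X ^ (1 - (t / (kap σ * aff H ^ (3 / 4 : ℝ))) ^ 4 - ε) ≤ LVc (fun R => σ * Er idf H c R) t X (2 * X)) ∧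
    (kap σ * aff H ^ (3 / 4 : ℝ) < t → ∀ R : ℝ, X ≤ R → σ * Er idf H c R < t * gR R)

theorem allX_of {H : ℝ → ℝ} (hO : IsOv H) (h : LawQ H) : AllX H := by
  intro s hs t ht ε hε
  obtain ⟨h1, h2⟩ := h
  obtain ⟨b1, b2⟩ := h1 s hs
  obtain ⟨X₁, hX₁⟩ := fin_law hO hs b1 b2 ht hε
  obtain ⟨X₂, hX₂⟩ := fin_law_s hO hs (h2 s hs) ht hε
  refine ⟨max X₁ X₂, fun X hX => ⟨hX₂ X ((le_max_right _ _).trans hX), fun c => ?_⟩⟩
  exact (hX₁ X ((le_max_left _ _).trans hX) c).2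

/-- the final form: outside a Borel set `B` part (1) holds for `k ≤ 5` and part (2) for all `k`; `B` is a shy set -/
def FinQ (k : ℕ∞) (val : V → ℝ → ℝ) [MeasurableSpace V] : Prop :=
    ∃ B : Set V, (∀ H : V, H ∉ B → (∀ t, 0 < val H t + deriv (deriv (val H)) t) → (k ≤ 5 → LatP (val H)) ∧ AllX (val H)) ∧
      MeasurableSet B ∧ ∃ μ' : Measure V, IsProbabilityMeasure μ' ∧ (∃ K : Set V, IsCompact K ∧ μ' Kᶜ = 0) ∧
        ∀ v : V, μ' {w | ∃ u ∈ B, ∀ t, val u t = val w t + val v t} = 0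

/-- the case `k ≤ 5` -/
theorem prev_low [MeasurableSpace V] [BorelSpace V] (h : IsPerI k val) (hk : 2 ≤ k) (hk5 : k ≤ 5) :
    ∃ B : Set V, (∀ H : V, H ∉ B → (∀ t, 0 < val H t + deriv (deriv (val H)) t) → LatP (val H) ∧ LawQ (val H)) ∧
      MeasurableSet B ∧ ∃ μ' : Measure V, IsProbabilityMeasure μ' ∧ (∃ K : Set V, IsCompact K ∧ μ' Kᶜ = 0) ∧
        ∀ v : V, μ' {w | ∃ u ∈ B, ∀ t, val u t = val w t + val v t} = 0 := by
  have hk5' : ((k : ℕ∞) : WithTop ℕ∞) ≤ 5 := WithTop.coe_le_coe.2 hk5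
  refine prev_gen (PP nu1) (fun y => Pool.Agent.Helper93.AO.WW y) (fun y => (WW_smooth y).of_le hk5') WW_per
    (fun j hj => WW_cont_unif (by exact_mod_cast hj.trans hk5)) (L := fun H => LatP H ∧ LawQ H) (L' := fun H => LatF H ∧ LawQ H) C5_meas
    (fun H hH hpos => lat_of hH hpos) (fun H hH => not_C5 hH) ?_ h hk
  intro v hv hvp S _ hS
  have hae : ∀ᵐ y ∂(PP nu1), (∀ t, 0 < (v t + Pool.Agent.Helper93.AO.WW y t) + deriv (deriv (fun s => v s + Pool.Agent.Helper93.AO.WW y s)) t) →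
      LatF (fun s => v s + Pool.Agent.Helper93.AO.WW y s) ∧ LawQ (fun s => v s + Pool.Agent.Helper93.AO.WW y s) := by
    filter_upwards [as_lat nu1_rapid hv hvp one_ne_zero, Pool.Agent.Helper93.EX.as_law hv hvp one_ne_zero (Or.inl rfl),
      Pool.Agent.Helper93.EX.as_law hv hvp one_ne_zero (Or.inr rfl), Pool.Agent.Helper93.EX.as_law4 hv hvp one_ne_zero (Or.inl rfl),
      Pool.Agent.Helper93.EX.as_law4 hv hvp one_ne_zero (Or.inr rfl), as_law_s hv hvp one_ne_zero (Or.inl rfl),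
      as_law_s hv hvp one_ne_zero (Or.inr rfl)] with y a0 a1 a2 a3 a4 a5 a6
    have e : (fun s => v s + Pool.Agent.Helper93.AO.WW y s) = Pool.Agent.Helper93.AO.Hx v 1 y := by
      funext t
      unfold Pool.Agent.Helper93.AO.Hx
      ring
    rw [e]
    intro hpos
    have hpos' : ∀ t, 0 < Pool.Agent.Helper93.AO.Hx v 1 y t + deriv (deriv (Pool.Agent.Helper93.AO.Hx v 1 y)) t := by
      intro t
      have h1 := hpos t
      have h3 : v t + Pool.Agent.Helper93.AO.WW y t = Pool.Agent.Helper93.AO.Hx v 1 y t := congrFun e t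
      rwa [h3] at h1
    refine ⟨a0 hpos', ?_, ?_⟩
    · rintro s (rfl | rfl)
      · exact ⟨a1 hpos', a3 hpos'⟩
      · exact ⟨a2 hpos', a4 hpos'⟩
    · rintro s (rfl | rfl)
      · exact a5 hpos'
      · exact a6 hpos'
  exact measure_mono_null (fun y hy => hS y hy) hae

/-- the laws for all `k` -/
theorem prev_high [MeasurableSpace V] [BorelSpace V] (h : IsPerI k val) (hk : 2 ≤ k) :
    ∃ B : Set V, (∀ H : V, H ∉ B → (∀ t, 0 < val H t + deriv (deriv (val H)) t) → LawQ (val H)) ∧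
      MeasurableSet B ∧ ∃ μ' : Measure V, IsProbabilityMeasure μ' ∧ (∃ K : Set V, IsCompact K ∧ μ' Kᶜ = 0) ∧
        ∀ v : V, μ' {w | ∃ u ∈ B, ∀ t, val u t = val w t + val v t} = 0 := by
  let _ : Amp := Pool.Agent.Helper81.AO.theAmp
  refine prev_glue (s := Pool.Agent.Helper81.AO.sD) Pool.Agent.Helper81.AO.sD_rap (Q := PP nu1) (W := Pool.Agent.Helper22.AI.WW) Pool.Agent.Helper22.AI.WW_top
    Pool.Agent.Helper22.AI.WW_per Pool.Agent.Helper22.AI.WW_cont_unif (T := Pool.Agent.Helper81.AO.theAmp.T) (e := Pool.Agent.Helper81.AO.eD)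
    (fun H₀ h2 hp => Pool.Agent.Helper81.AO.high_ae h2 hp) C2_meas (fun H hH hpos => lawQ_of hH hpos) (fun H hH => not_C2 hH) ?_ h hk
  intro H₀ h2 hp
  have he := Pool.Agent.Helper81.AO.eD_pos
  have he1 := Pool.Agent.Helper81.AO.eD_le
  have e1 : ∀ o : Om, (fun t => H₀ t + Pool.Agent.Helper22.AI.WW o t) = Pool.Agent.Helper22.AI.Hx H₀ 1 o := by
    intro o
    funext t
    unfold Pool.Agent.Helper22.AI.Hx
    ring
  filter_upwards [Pool.Agent.Helper22.AI.as_law_h h2 hp one_ne_zero (Or.inl rfl) he he1, Pool.Agent.Helper22.AI.as_law_h h2 hp one_ne_zero (Or.inr rfl) he he1,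
    Pool.Agent.Helper22.AI.as_law4_h h2 hp one_ne_zero (Or.inl rfl) he he1, Pool.Agent.Helper22.AI.as_law4_h h2 hp one_ne_zero (Or.inr rfl) he he1,
    as_law_s_h h2 hp one_ne_zero (Or.inl rfl) he he1, as_law_s_h h2 hp one_ne_zero (Or.inr rfl) he he1] with o a1 a2 a3 a4 a5 a6 hS hpos
  rw [e1] at hS hpos ⊢
  have hpos' : ∀ t, 0 < Pool.Agent.Helper22.AI.Hx H₀ 1 o t + deriv (deriv (Pool.Agent.Helper22.AI.Hx H₀ 1 o)) t := by
    intro t
    have h1 := hpos t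
    have h3 : H₀ t + Pool.Agent.Helper22.AI.WW o t = Pool.Agent.Helper22.AI.Hx H₀ 1 o t := congrFun (e1 o) t
    rwa [h3] at h1
  refine ⟨?_, ?_⟩
  · rintro s (rfl | rfl)
    · exact ⟨a1 hS hpos', a3 hS hpos'⟩
    · exact ⟨a2 hS hpos', a4 hS hpos'⟩
  · rintro s (rfl | rfl)
    · exact a5 hS hpos'
    · exact a6 hS hpos'

/-- PREVALENCE for all `2 ≤ k ≤ ∞` -/
theorem prev_final [MeasurableSpace V] [BorelSpace V] (h : IsPerI k val) (hk : 2 ≤ k) : FinQ k val := by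
  have hO : ∀ H : V, (∀ t, 0 < val H t + deriv (deriv (val H)) t) → IsOv (val H) := fun H hH => ⟨(h.smooth H).of_le (two_le_coe hk), h.per H, hH⟩
  by_cases hk5 : k ≤ 5
  · obtain ⟨B, h1, h2, h3⟩ := prev_low h hk hk5
    exact ⟨B, fun H hB hH => ⟨fun _ => (h1 H hB hH).1, allX_of (hO H hH) (h1 H hB hH).2⟩, h2, h3⟩
  · obtain ⟨B, h1, h2, h3⟩ := prev_high h hk
    exact ⟨B, fun H hB hH => ⟨fun h5 => absurd h5 hk5, allX_of (hO H hH) (h1 H hB hH)⟩, h2, h3⟩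

end

end Pool.Agent.Helper27.AW
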