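import Pool.Agent.Helper27.AW.Prev
import Pool.Agent.Helper27.AO.Glue

/-!
# AW (MP_fb29e9_nt, AlmostEveryOval v6), block S5: Fubini for the two samples, general form

As `Helper27/AO/Glue`, for a general law `L` with a Borel set of violations.
-/

open MeasureTheory Real Set Filter Topology unitInterval

set_option autoImplicit false

namespace Pool.Agent.Helper27.AW

open scoped ContDiff
open Pool.Agent.Helper22.AE (rho IsSupp ft ee)
open Pool.Agent.Helper92.AO (HiG fub_hi near_of_cont)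
open Pool.Agent.Helper99.EY (SBl SBh)
open Pool.Agent.Helper93.AO (Om)
open Pool.Agent.Helper27.AO

section

variable {k : ℕ∞} {V : Type} [TopologicalSpace V] {val : V → ℝ → ℝ}

/-- the form for two independent samples: for almost every `x` and almost every `y` -/
theorem prev_prod {X Y : Type} [TopologicalSpace X] [CompactSpace X] [MeasurableSpace X] [TopologicalSpace Y] [CompactSpace Y] [MeasurableSpace Y]
    [OpensMeasurableSpace (X × Y)] (P : Measure X) [IsProbabilityMeasure P] (Q : Measure Y) [IsProbabilityMeasure Q]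
    (F : X × Y → ℝ → ℝ) (hF : ∀ z, ContDiff ℝ ∞ (F z)) (hFp : ∀ z, Function.Periodic (F z) (2 * π))
    (hFc : ∀ j : ℕ, Continuous fun z => UniformFun.ofFun (iteratedDeriv j (F z)))
    {L L' : (ℝ → ℝ) → Prop} {BB : Set P2} (hBm' : MeasurableSet BB) (hB1 : ∀ H : P2, H ∉ BB → (∀ t, 0 < H.val t + deriv (deriv H.val) t) → L H.val)
    (hB2 : ∀ H : P2, ((∀ t, 0 < H.val t + deriv (deriv H.val) t) → L' H.val) → H ∉ BB)
    (hlaw : ∀ v : ℝ → ℝ, ContDiff ℝ 2 v → Function.Periodic v (2 * π) →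
      ∀ᵐ x ∂P, ∀ᵐ y ∂Q, (∀ t, 0 < (v t + F (x, y) t) + deriv (deriv (fun s => v s + F (x, y) s)) t) → L' (fun s => v s + F (x, y) s))
    [MeasurableSpace V] [BorelSpace V] (h : IsPerI k val) (hk : 2 ≤ k) :
    ∃ B : Set V, (∀ H : V, H ∉ B → (∀ t, 0 < val H t + deriv (deriv (val H)) t) → L (val H)) ∧
      MeasurableSet B ∧ ∃ μ' : Measure V, IsProbabilityMeasure μ' ∧ (∃ K : Set V, IsCompact K ∧ μ' Kᶜ = 0) ∧
        ∀ v : V, μ' {w | ∃ u ∈ B, ∀ t, val u t = val w t + val v t} = 0 := by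
  refine prev_gen (P.prod Q) F (fun z => (hF z).of_le (by exact_mod_cast le_top)) hFp (fun j _ => hFc j) hBm' hB1 hB2 (fun v h2 hp S hS hS' => ?_) h hk
  rw [Measure.measure_prod_null hS]
  filter_upwards [hlaw v h2 hp] with x hx
  exact measure_mono_null (fun y hy => hS' (x, y) hy) hx

theorem prev_glue {s : ℕ → ℝ} (hs : Rap s) {Q : Measure Om} [IsProbabilityMeasure Q] {W : Om → ℝ → ℝ} (hW : ∀ y, ContDiff ℝ ∞ (W y))
    (hWp : ∀ y, Function.Periodic (W y) (2 * π)) (hWc : ∀ j : ℕ, Continuous fun y => UniformFun.ofFun (iteratedDeriv j (W y))) {T : ℕ → ℕ} {e : ℝ}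
    (hdiag : ∀ H₀ : ℝ → ℝ, ContDiff ℝ 2 H₀ → Function.Periodic H₀ (2 * π) →
      ∀ᵐ x ∂PI, ∃ p₀ : ℕ, ∀ p : ℕ, p₀ ≤ p → HGi T e p (fun t => H₀ t + As s x t))
    {L : (ℝ → ℝ) → Prop} {BB : Set P2} (hBm' : MeasurableSet BB) (hB1 : ∀ H : P2, H ∉ BB → (∀ t, 0 < H.val t + deriv (deriv H.val) t) → L H.val)
    (hB2 : ∀ H : P2, ((∀ t, 0 < H.val t + deriv (deriv H.val) t) → L H.val) → H ∉ BB)
    (hlaw : ∀ H₀ : ℝ → ℝ, ContDiff ℝ 2 H₀ → Function.Periodic H₀ (2 * π) →
      ∀ᵐ y ∂Q, SBh T e (fun t => H₀ t + W y t) → (∀ t, 0 < (H₀ t + W y t) + deriv (deriv (fun t => H₀ t + W y t)) t) → L (fun t => H₀ t + W y t))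
    [MeasurableSpace V] [BorelSpace V] (h : IsPerI k val) (hk : 2 ≤ k) :
    ∃ B : Set V, (∀ H : V, H ∉ B → (∀ t, 0 < val H t + deriv (deriv (val H)) t) → L (val H)) ∧
      MeasurableSet B ∧ ∃ μ' : Measure V, IsProbabilityMeasure μ' ∧ (∃ K : Set V, IsCompact K ∧ μ' Kᶜ = 0) ∧
        ∀ v : V, μ' {w | ∃ u ∈ B, ∀ t, val u t = val w t + val v t} = 0 := by
  have hc2 : ∀ y, ContDiff ℝ 2 (W y) := fun y => (hW y).of_le (WithTop.coe_le_coe.2 (le_top : (2 : ℕ∞) ≤ ⊤))
  have ha2 : ∀ x, ContDiff ℝ 2 (As s x) := fun x => As_cd hs x 2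
  refine prev_prod (X := ℕ → I × I) (Y := Om) PI Q (fun z t => W z.2 t + As s z.1 t) ?_ ?_ ?_ hBm' hB1 hB2 ?_ h hk
  · exact fun z => (hW z.2).add (As_smooth hs z.1)
  · intro z t
    simp only [hWp z.2 t, As_per s z.1 t]
  · intro j
    have h1 : ∀ y, ContDiff ℝ j (W y) := fun y => (hW y).of_le (by exact_mod_cast le_top)
    have h2 := sum_cont (j := j) h1 (fun x => As_cd hs x j) (hWc j) (As_cont hs j)
    exact h2.comp (continuous_snd.prodMk continuous_fst)
  · intro v hv hvp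
    have hb : ∀ y : Om, ∀ᵐ x ∂PI, ∃ p₀ : ℕ, ∀ p : ℕ, p₀ ≤ p → HGi T e p (fun t => v t + (W y t + As s x t)) := by
      intro y
      have h1 := hdiag (fun t => v t + W y t) (hv.add (hc2 y)) (fun t => by simp only [hvp t, hWp y t])
      filter_upwards [h1] with x hx
      simpa only [add_assoc] using hx
    have hj : ∀ j : ℕ, j ≤ 2 → Continuous fun z : Om × (ℕ → I × I) => UniformFun.ofFun (iteratedDeriv j (fun t => W z.1 t + As s z.2 t)) := fun j _ =>
      sum_cont (j := j) (fun y => (hW y).of_le (by exact_mod_cast le_top)) (fun x => As_cd hs x j) (hWc j) (As_cont hs j)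
    have hF : ∀ᵐ x ∂PI, ∀ᵐ y ∂Q, ∃ p₀ : ℕ, ∀ p : ℕ, p₀ ≤ p → HGi T e p (fun t => v t + (W y t + As s x t)) := by
      refine fub_hi (F := fun z : Om × (ℕ → I × I) => fun t => v t + (W z.1 t + As s z.2 t)) (fun z => hv.add ((hc2 z.1).add (ha2 z.2))) ?_
        (near_of_cont hv (F := fun z : Om × (ℕ → I × I) => fun t => W z.1 t + As s z.2 t) (fun z => (hc2 z.1).add (ha2 z.2)) (hj 0 (by norm_num)) (hj 2 le_rfl))
        (fun p => {n : ℕ | T p < n ∧ (n : ℝ) ≤ (1 / 2 + e) * p}) (A := fun p => 2 ^ p / 2) (B := fun p => 4 * 2 ^ p) (fun p => by positivity)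
        (fun p n => sqrt (2 ^ p) / ((n : ℝ) + 1) ^ 2) hb
      intro z t
      simp only [hvp t, hWp z.1 t, As_per s z.2 t]
    filter_upwards [hF] with x hx
    have hl := hlaw (fun t => v t + As s x t) (hv.add (ha2 x)) (fun t => by simp only [hvp t, As_per s x t])
    filter_upwards [hx, hl] with y h1 h2
    have e1 : (fun t => v t + (W y t + As s x t)) = fun t => (v t + As s x t) + W y t := by
      funext t
      ring
    have h3 := sbh_of h1
    rw [e1] at h3
    have h4 := h2 h3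
    show (∀ t, 0 < (v t + (W y t + As s x t)) + deriv (deriv (fun t => v t + (W y t + As s x t))) t) → L (fun t => v t + (W y t + As s x t))
    rw [e1]
    intro h5
    refine h4 fun t => ?_
    have h6 := h5 t
    linarith

end

end Pool.Agent.Helper27.AW
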