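import Pool.Agent.Helper27.AO.Prev
import Pool.Agent.Helper99.AW.MeasS

/-!
# AW (MP_fb29e9_nt, AlmostEveryOval v6), block S5: prevalence, with the law at the worst centre

`VS` is the set of the violations of the law at the worst centre. `prev_gen`: prevalence in the space of the functions of class `C^k`, `2 ≤ k ≤ ∞`, from a Borel set of
violations in the space of the functions of class `C²` and a random function with a compact space of samples.
-/

open MeasureTheory Real Set Filter Topology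

set_option autoImplicit false

namespace Pool.Agent.Helper27.AW

open Pool.Agent.Helper93.AO
open Pool.Agent.Helper93.EX
open Pool.Agent.Helper22.LP (Fr fdet)
open Pool.Agent.Helper92.LA (Fb)
open Pool.Agent.Helper88.EX (idf Es Es_one Es_neg Es_le)
open Pool.Agent.Helper22.AW (LS LSc LawS)
open Pool.Agent.Helper99.AW (meas_s)
open Pool.Agent.Helper27.AO

/-- the violations of the law at the worst centre -/
def VS {V : Type} (σ : ℝ) (val : V → ℝ → ℝ) : Set V := {H : V | (∀ t, 0 < val H t + deriv (deriv (val H)) t) ∧ ∃ t : ℝ, 0 < t ∧ ∃ ε : ℝ, 0 < ε ∧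
  ∀ p₀ : ℕ, ∃ p : ℕ, p₀ ≤ p ∧
    2 ^ ((1 - (t / (kap σ * aff (val H) ^ (3 / 4 : ℝ))) ^ 4 + ε) * p : ℝ) < LS (fun R c => Es σ (val H) c R) t (2 ^ p) (2 ^ (p + 1))}

theorem laws_of {V : Type} {val : V → ℝ → ℝ} {σ : ℝ} {H : V} (hH : ∀ t, 0 < val H t + deriv (deriv (val H)) t) (h : H ∉ VS σ val) : LawS σ (val H) := by
  intro t ht ε hε
  by_contra hcon
  push Not at hcon
  exact h ⟨hH, t, ht, ε, hε, hcon⟩

theorem not_of_laws {V : Type} {val : V → ℝ → ℝ} {σ : ℝ} {H : V} (h : (∀ t, 0 < val H t + deriv (deriv (val H)) t) → LawS σ (val H)) : H ∉ VS σ val := by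
  rintro ⟨hH, t, ht, ε, hε, hp⟩
  obtain ⟨p₀, h1⟩ := h hH t ht ε hε
  obtain ⟨p, hp1, hc⟩ := hp p₀
  exact absurd (h1 p hp1) (not_le.2 hc)

/-- all laws for one oval -/
def LawQ (H : ℝ → ℝ) : Prop := LawP H ∧ ∀ σ : ℝ, σ = 1 ∨ σ = -1 → LawS σ H

/-- the Borel set of the violations -/
def C2 : Set P2 := B2 ∪ (VS 1 P2.val ∪ VS (-1) P2.val)

theorem C2_meas : MeasurableSet C2 :=
  B2_meas.union ((meas_s isPer2 le_rfl (Or.inl rfl) (kap_pos (Or.inl rfl))).union (meas_s isPer2 le_rfl (Or.inr rfl) (kap_pos (Or.inr rfl))))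

theorem lawQ_of {H : P2} (h : H ∉ C2) (hH : ∀ t, 0 < H.val t + deriv (deriv H.val) t) : LawQ H.val := by
  unfold C2 at h
  simp only [mem_union, not_or] at h
  obtain ⟨h1, h2, h3⟩ := h
  refine ⟨law_of_B2 h1 hH, ?_⟩
  rintro σ (rfl | rfl)
  · exact laws_of hH h2
  · exact laws_of hH h3

theorem not_C2 {H : P2} (h : (∀ t, 0 < H.val t + deriv (deriv H.val) t) → LawQ H.val) : H ∉ C2 := by
  have n1 := not_of_laws (σ := 1) (H := H) (val := P2.val) fun hH => (h hH).2 1 (Or.inl rfl)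
  have n2 := not_of_laws (σ := -1) (H := H) (val := P2.val) fun hH => (h hH).2 (-1) (Or.inr rfl)
  unfold C2
  simp only [mem_union, not_or]
  exact ⟨not_B2_of_law fun hH => (h hH).1, n1, n2⟩

/-- part (1) for one oval -/
def LatP (H : ℝ → ℝ) : Prop := ∀ K : Set Fr, IsCompact K → (∀ p ∈ K, fdet p ≠ 0) → ∃ C : ℝ, ∀ p ∈ K, ∀ R : ℝ, 2 ≤ R → ∀ c : ℝ × ℝ, |Er p H c R| ≤ C * gR R

/-- part (1), for the frames with bounds -/
def LatF (H : ℝ → ℝ) : Prop := ∀ M : ℝ, 1 ≤ M → ∃ C : ℝ, ∀ ab : Fr, Fb M ab → ∀ R : ℝ, 2 ≤ R → ∀ c : ℝ × ℝ, |Er ab H c R| ≤ C * gR R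

/-- the Borel set of the violations of part (1) or of the laws -/
def C5 : Set P2 := B93 P2.val ∪ C2

theorem C5_meas : MeasurableSet C5 :=
  (MeasurableSet.iUnion fun M => MeasurableSet.iInter fun C => (U_open93 isPer2 le_rfl M C).measurableSet).union C2_meas

theorem lat_of {H : P2} (h : H ∉ C5) (hH : ∀ t, 0 < H.val t + deriv (deriv H.val) t) : LatP H.val ∧ LawQ H.val := by
  unfold C5 at h
  simp only [mem_union, not_or] at h
  exact ⟨fun K hK hdet => not_B93 isPer2 le_rfl h.1 hH hK hdet, lawQ_of h.2 hH⟩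

theorem not_C5 {H : P2} (h : (∀ t, 0 < H.val t + deriv (deriv H.val) t) → LatF H.val ∧ LawQ H.val) : H ∉ C5 := by
  unfold C5
  simp only [mem_union, not_or]
  refine ⟨fun hcon => ?_, not_C2 fun hH => (h hH).2⟩
  unfold B93 at hcon
  rw [mem_iUnion] at hcon
  obtain ⟨M, hM⟩ := hcon
  rw [mem_iInter] at hM
  have hpos := (hM 0).1
  obtain ⟨C, hC⟩ := (h hpos).1 ((M + 1 : ℕ) : ℝ) (by push_cast; linarith [Nat.cast_nonneg (α := ℝ) M])
  obtain ⟨-, ab, hab, R, hR, c, hlt⟩ := hM ⌈C⌉₊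
  have h1 := hC ab hab R hR.le c
  have hg : 0 ≤ gR R := mul_nonneg (rpow_nonneg (by linarith) _) (rpow_nonneg (log_nonneg (by linarith)) _)
  have h2 : C * gR R ≤ (⌈C⌉₊ : ℝ) * gR R := mul_le_mul_of_nonneg_right (Nat.le_ceil C) hg
  linarith

section

variable {k : ℕ∞} {V : Type} [TopologicalSpace V] {val : V → ℝ → ℝ}

/-- PREVALENCE, general form -/
theorem prev_gen {Z : Type} [TopologicalSpace Z] [CompactSpace Z] [MeasurableSpace Z] [OpensMeasurableSpace Z] (μ : Measure Z) [IsProbabilityMeasure μ]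
    (F : Z → ℝ → ℝ) (hF : ∀ z, ContDiff ℝ k (F z)) (hFp : ∀ z, Function.Periodic (F z) (2 * π))
    (hFc : ∀ j : ℕ, (j : ℕ∞) ≤ k → Continuous fun z => UniformFun.ofFun (iteratedDeriv j (F z)))
    {L L' : (ℝ → ℝ) → Prop} {BB : Set P2} (hBm' : MeasurableSet BB) (hB1 : ∀ H : P2, H ∉ BB → (∀ t, 0 < H.val t + deriv (deriv H.val) t) → L H.val)
    (hB2 : ∀ H : P2, ((∀ t, 0 < H.val t + deriv (deriv H.val) t) → L' H.val) → H ∉ BB)
    (hlaw : ∀ v : ℝ → ℝ, ContDiff ℝ 2 v → Function.Periodic v (2 * π) → ∀ S : Set Z, MeasurableSet S →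
      (∀ z ∈ S, ¬ ((∀ t, 0 < (v t + F z t) + deriv (deriv (fun s => v s + F z s)) t) → L' (fun s => v s + F z s))) → μ S = 0)
    [MeasurableSpace V] [BorelSpace V] (h : IsPerI k val) (hk : 2 ≤ k) :
    ∃ B : Set V, (∀ H : V, H ∉ B → (∀ t, 0 < val H t + deriv (deriv (val H)) t) → L (val H)) ∧
      MeasurableSet B ∧ ∃ μ' : Measure V, IsProbabilityMeasure μ' ∧ (∃ K : Set V, IsCompact K ∧ μ' Kᶜ = 0) ∧
        ∀ v : V, μ' {w | ∃ u ∈ B, ∀ t, val u t = val w t + val v t} = 0 := by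
  have ht2 : T2Space V := t2I h
  obtain ⟨B, hBdef⟩ : ∃ B : Set V, B = toP2 h hk ⁻¹' BB := ⟨_, rfl⟩
  have hBm : MeasurableSet B := by
    rw [hBdef]
    exact (toP2_cont h hk).measurable hBm'
  -- the random function as an element of `V`
  have hW : ∀ z : Z, ∃ v : V, val v = F z := fun z => h.surj (F z) (hF z) (hFp z)
  choose RW hRW using hW
  have hRc : Continuous RW := by
    rw [h.top.continuous_iff, continuous_pi_iff]
    intro j
    refine (hFc (j : ℕ) j.2).congr fun z => ?_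
    show _ = UniformFun.ofFun (iteratedDeriv j (val (RW z)))
    rw [hRW]
  -- the sum of two functions
  have hA : ∀ w v : V, ∃ u : V, val u = fun t => val w t + val v t := fun w v =>
    h.surj _ ((h.smooth w).add (h.smooth v)) fun t => congrArg₂ (· + ·) (h.per w t) (h.per v t)
  choose ad had using hA
  have hAc : ∀ v : V, Continuous fun w : V => ad w v := by
    intro v
    rw [h.top.continuous_iff, continuous_pi_iff]
    intro j
    have h1 : Continuous fun w : V => UniformFun.ofFun (iteratedDeriv j (val w)) + UniformFun.ofFun (iteratedDeriv j (val v)) := (contI h j.2).add continuous_const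
    refine h1.congr fun w => ?_
    show _ = UniformFun.ofFun (iteratedDeriv j (val (ad w v)))
    rw [← UniformFun.ofFun_add, had]
    congr 1
    funext t
    have hj2 : (((j : ℕ) : ℕ∞) : WithTop ℕ∞) ≤ ((k : ℕ∞) : WithTop ℕ∞) := by exact_mod_cast j.2
    have hj3 : ((j : ℕ) : WithTop ℕ∞) ≤ ((k : ℕ∞) : WithTop ℕ∞) := by exact_mod_cast hj2
    exact (iteratedDeriv_fun_add ((h.smooth w).of_le hj3).contDiffAt ((h.smooth v).of_le hj3).contDiffAt).symm
  have hset : ∀ v : V, {w : V | ∃ u ∈ B, ∀ t, val u t = val w t + val v t} = {w | ad w v ∈ B} := by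
    intro v
    ext w
    constructor
    · rintro ⟨u, hu, hh⟩
      have e : u = ad w v := h.inj (by rw [had]; exact funext hh)
      rw [e] at hu
      exact hu
    · intro hh
      exact ⟨_, hh, fun t => by rw [had]⟩
  refine ⟨B, ?_, hBm, Measure.map RW μ, Measure.isProbabilityMeasure_map hRc.measurable.aemeasurable, ?_, ?_⟩
  · intro H hB hH
    rw [hBdef] at hB
    exact hB1 (toP2 h hk H) hB hH
  · have hcp : IsCompact (range RW) := isCompact_range hRc
    refine ⟨range RW, hcp, ?_⟩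
    rw [Measure.map_apply hRc.measurable hcp.isClosed.measurableSet.compl]
    have : RW ⁻¹' (range RW)ᶜ = ∅ := by
      ext z
      simp
    rw [this, measure_empty]
  · intro v
    rw [hset]
    have hm : MeasurableSet {w : V | ad w v ∈ B} := (hAc v).measurable hBm
    rw [Measure.map_apply hRc.measurable hm]
    have hv2 : ContDiff ℝ 2 (val v) := (h.smooth v).of_le (two_le_coe hk)
    refine hlaw (val v) hv2 (h.per v) _ (hRc.measurable hm) fun z hcon hz => ?_
    have e : val (ad (RW z) v) = fun s => val v s + F z s := by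
      rw [had, hRW]
      funext t
      ring
    have hcon' : ad (RW z) v ∈ B := hcon
    rw [hBdef] at hcon'
    refine hB2 (toP2 h hk (ad (RW z) v)) (fun hH => ?_) hcon'
    have hH' : ∀ t, 0 < val (ad (RW z) v) t + deriv (deriv (val (ad (RW z) v))) t := hH
    show L' (val (ad (RW z) v))
    rw [e] at hH' ⊢
    exact hz hH'

end

end Pool.Agent.Helper27.AW
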